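import Pool.Agent.Helper48.AX.Defs

/-! ARC: length of circular arcs -/

set_option autoImplicit false

open scoped MeasureTheory ENNReal Topology
open Complex Set

noncomputable section

namespace AX

lemma arc_dist (c : ℂ) (r s t : ℝ) (hr : 0 < r) :
    dist (c + (r : ℂ) * e s) (c + (r : ℂ) * e t) = 2 * r * |Real.sin ((s - t) / 2)| := by
  rw [dist_eq_norm]
  have h1 : c + (r : ℂ) * e s - (c + (r : ℂ) * e t) =
      (r : ℂ) * (e t * (Complex.exp (I * ((s - t : ℝ) : ℂ)) - 1)) := by
    unfold e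
    rw [mul_sub, ← Complex.exp_add]
    have : (t : ℂ) * I + I * ((s - t : ℝ) : ℂ) = s * I := by push_cast; ring
    rw [this]
    ring
  rw [h1, norm_mul, norm_mul, Complex.norm_exp_I_mul_ofReal_sub_one]
  unfold e
  rw [Complex.norm_exp_ofReal_mul_I, Complex.norm_real, Real.norm_eq_abs, abs_of_pos hr,
    Real.norm_eq_abs, abs_mul, abs_two]
  ring

lemma arc_cont (c : ℂ) (r : ℝ) : Continuous (fun θ : ℝ => c + (r : ℂ) * e θ) := by
  unfold e
  fun_prop

lemma arc_inj (c : ℂ) (r a : ℝ) (hr : 0 < r) :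
    Set.InjOn (fun θ : ℝ => c + (r : ℂ) * e θ) (Set.Ico a (a + 2 * Real.pi)) := by
  intro s hs t ht hst
  have h1 : dist (c + (r : ℂ) * e s) (c + (r : ℂ) * e t) = 0 := dist_eq_zero.2 hst
  rw [arc_dist c r s t hr] at h1
  have h2 : Real.sin ((s - t) / 2) = 0 := by
    rcases mul_eq_zero.1 h1 with h | h
    · linarith
    · exact abs_eq_zero.1 h
  have h3 := (Real.sin_eq_zero_iff_of_lt_of_lt (by linarith [hs.1, ht.2]) (by
    linarith [hs.2, ht.1])).1 h2
  linarith

lemma arc_upper (c : ℂ) (r : ℝ) (S : Set ℝ) (hr : 0 < r) :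
    μH[1] ((fun θ : ℝ => c + (r : ℂ) * e θ) '' S) ≤ ENNReal.ofReal r * MeasureTheory.volume S := by
  have h1 : LipschitzWith r.toNNReal (fun θ : ℝ => c + (r : ℂ) * e θ) := by
    apply LipschitzWith.of_dist_le_mul
    intro s t
    rw [arc_dist c r s t hr, Real.coe_toNNReal r hr.le, Real.dist_eq]
    have h2 : |Real.sin ((s - t) / 2)| ≤ |(s - t) / 2| := Real.abs_sin_le_abs
    rw [abs_div, abs_two] at h2
    nlinarith
  have h2 := h1.hausdorffMeasure_image_le zero_le_one S
  rw [ENNReal.rpow_one, MeasureTheory.hausdorffMeasure_real] at h2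
  exact h2

lemma arc_lower_small (c : ℂ) (r b h : ℝ) (S : Set ℝ) (hr : 0 < r) (h0 : 0 < h) (h1 : h ≤ 1)
    (hS : S ⊆ Set.Ico b (b + h)) :
    MeasureTheory.volume S ≤ ENNReal.ofReal (1 / (r * (1 - h ^ 2 / 16))) *
      μH[1] ((fun θ : ℝ => c + (r : ℂ) * e θ) '' S) := by
  have hk : 0 < 1 - h ^ 2 / 16 := by nlinarith
  have hpi : 2 * Real.pi > 1 := by nlinarith [Real.pi_gt_three]
  have hinj : Set.InjOn (fun θ : ℝ => c + (r : ℂ) * e θ) S :=
    (arc_inj c r b hr).mono (hS.trans (Set.Ico_subset_Ico_right (by linarith)))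
  have hdist : ∀ s ∈ S, ∀ t ∈ S, dist s t ≤ 1 / (r * (1 - h ^ 2 / 16)) *
      dist (c + (r : ℂ) * e s) (c + (r : ℂ) * e t) := by
    intro s hs t ht
    rw [arc_dist c r s t hr, Real.dist_eq]
    have hst : |s - t| < h := by
      rw [abs_lt]
      constructor <;> linarith [(hS hs).1, (hS hs).2, (hS ht).1, (hS ht).2]
    have key : ∀ u : ℝ, 0 ≤ u → u < h → u * (1 - h ^ 2 / 16) ≤ 2 * Real.sin (u / 2) := by
      intro u hu0 hu1
      rcases hu0.eq_or_lt with hu | hu
      · rw [← hu]; simp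
      · have h8 := Real.sin_gt_sub_cube (x := u / 2) (by linarith)
        have h3 : u ^ 2 ≤ h ^ 2 := by nlinarith
        have h9 := mul_le_mul_of_nonneg_left h3 hu.le
        have h10 : 0 ≤ u * h ^ 2 := by positivity
        have h11 : (u / 2) ^ 3 = u * u ^ 2 / 8 := by ring
        rw [h11] at h8
        nlinarith
    have h4 := key |s - t| (abs_nonneg _) hst
    have h5 : |Real.sin ((s - t) / 2)| = Real.sin (|s - t| / 2) := by
      rcases abs_cases (s - t) with ⟨h6, h7⟩ | ⟨h6, h7⟩
      · rw [h6]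
        rw [abs_of_nonneg]
        apply Real.sin_nonneg_of_nonneg_of_le_pi
        · linarith
        · linarith [Real.pi_gt_three]
      · rw [h6]
        have : -(s - t) / 2 = -((s - t) / 2) := by ring
        rw [this, Real.sin_neg, abs_of_nonpos]
        apply Real.sin_nonpos_of_nonpos_of_neg_pi_le
        · linarith
        · linarith [Real.pi_gt_three]
    rw [h5]
    rw [div_mul_eq_mul_div, le_div_iff₀ (by positivity), one_mul]
    nlinarith
  have hlip : LipschitzOnWith (1 / (r * (1 - h ^ 2 / 16))).toNNReal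
      (Function.invFunOn (fun θ : ℝ => c + (r : ℂ) * e θ) S)
      ((fun θ : ℝ => c + (r : ℂ) * e θ) '' S) := by
    apply LipschitzOnWith.of_dist_le_mul
    rintro _ ⟨s, hs, rfl⟩ _ ⟨t, ht, rfl⟩
    rw [Real.coe_toNNReal _ (by positivity)]
    have g1 := hinj.leftInvOn_invFunOn hs
    have g2 := hinj.leftInvOn_invFunOn ht
    rw [g1, g2]
    exact hdist s hs t ht
  have h2 := hlip.hausdorffMeasure_image_le zero_le_one
  rw [ENNReal.rpow_one, hinj.leftInvOn_invFunOn.image_image,
    MeasureTheory.hausdorffMeasure_real] at h2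
  exact h2

lemma arc_lower (c : ℂ) (r h : ℝ) (hr : 0 < r) (h0 : 0 < h) (h1 : h ≤ 1) (a : ℝ) :
    ∀ n : ℕ, (n : ℝ) * h ≤ 2 * Real.pi → ∀ S : Set ℝ, MeasurableSet S →
      S ⊆ Set.Ico a (a + n * h) →
      MeasureTheory.volume S ≤ ENNReal.ofReal (1 / (r * (1 - h ^ 2 / 16))) *
        μH[1] ((fun θ : ℝ => c + (r : ℂ) * e θ) '' S) := by
  intro n
  induction n with
  | zero =>
    intro _ S _ hS
    have : S = ∅ := by
      apply Set.eq_empty_of_subset_empty
      refine hS.trans ?_
      simp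
    rw [this]
    simp
  | succ n ih =>
    intro hn S hSm hS
    push_cast at hn hS
    have hn' : (n : ℝ) * h ≤ 2 * Real.pi := by nlinarith
    set A := S ∩ Set.Iio (a + n * h) with hA
    set B := S \ Set.Iio (a + n * h) with hB
    have hAm : MeasurableSet A := hSm.inter measurableSet_Iio
    have hBm : MeasurableSet B := hSm.diff measurableSet_Iio
    have hvol : MeasureTheory.volume S = MeasureTheory.volume A + MeasureTheory.volume B :=
      (MeasureTheory.measure_inter_add_sdiff S measurableSet_Iio).symm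
    have hinj : Set.InjOn (fun θ : ℝ => c + (r : ℂ) * e θ) S :=
      (arc_inj c r a hr).mono (hS.trans (Set.Ico_subset_Ico_right (by linarith)))
    have himA : MeasurableSet ((fun θ : ℝ => c + (r : ℂ) * e θ) '' A) :=
      hAm.image_of_continuousOn_injOn (arc_cont c r).continuousOn
        (hinj.mono Set.inter_subset_left)
    have himB : (fun θ : ℝ => c + (r : ℂ) * e θ) '' B =
        ((fun θ : ℝ => c + (r : ℂ) * e θ) '' S) \ ((fun θ : ℝ => c + (r : ℂ) * e θ) '' A) := by
      have hBA : B = S \ A := by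
        rw [hA, hB]; ext x; simp only [Set.mem_sdiff, Set.mem_inter_iff]; tauto
      rw [hBA]
      exact hinj.image_sdiff_subset Set.inter_subset_left
    have himAS : (fun θ : ℝ => c + (r : ℂ) * e θ) '' A =
        ((fun θ : ℝ => c + (r : ℂ) * e θ) '' S) ∩ ((fun θ : ℝ => c + (r : ℂ) * e θ) '' A) := by
      rw [Set.inter_eq_self_of_subset_right]
      exact Set.image_mono Set.inter_subset_left
    have hmu : μH[1] ((fun θ : ℝ => c + (r : ℂ) * e θ) '' S) =
        μH[1] ((fun θ : ℝ => c + (r : ℂ) * e θ) '' A) +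
        μH[1] ((fun θ : ℝ => c + (r : ℂ) * e θ) '' B) := by
      rw [himB]
      have h7 := MeasureTheory.measure_inter_add_sdiff (μ := μH[1])
        ((fun θ : ℝ => c + (r : ℂ) * e θ) '' S) himA
      rw [← himAS] at h7
      exact h7.symm
    rw [hvol, hmu, mul_add]
    apply add_le_add
    · apply ih hn' A hAm
      intro x hx
      exact ⟨(hS hx.1).1, hx.2⟩
    · apply arc_lower_small c r (a + n * h) h B hr h0 h1
      intro x hx
      refine ⟨not_lt.1 hx.2, ?_⟩
      have := (hS hx.1).2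
      linarith

theorem st_ARC : ST_ARC := by
  intro c r a S hr hSm hS
  apply le_antisymm (arc_upper c r S hr)
  set M := μH[1] ((fun θ : ℝ => c + (r : ℂ) * e θ) '' S) with hM
  have h1 : ∀ N : ℕ, MeasureTheory.volume S ≤
      ENNReal.ofReal (1 / (r * (1 - (2 * Real.pi / (N + 7 : ℝ)) ^ 2 / 16))) * M := by
    intro N
    have hN : (0 : ℝ) < N + 7 := by positivity
    apply arc_lower c r (2 * Real.pi / (N + 7)) hr (by positivity) _ a (N + 7) _ S hSm
    · refine hS.trans (Set.Ico_subset_Ico_right ?_)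
      push_cast
      rw [mul_div_cancel₀ _ hN.ne']
    · rw [div_le_one hN]
      have : (0 : ℝ) ≤ N := Nat.cast_nonneg N
      linarith [Real.pi_lt_d2]
    · push_cast
      rw [mul_div_cancel₀ _ hN.ne']
  have h2 : Filter.Tendsto (fun N : ℕ => ENNReal.ofReal
      (1 / (r * (1 - (2 * Real.pi / (N + 7 : ℝ)) ^ 2 / 16))) * M) Filter.atTop
      (𝓝 (ENNReal.ofReal (1 / r) * M)) := by
    apply ENNReal.Tendsto.mul_const
    · apply ENNReal.tendsto_ofReal
      have h3 : Filter.Tendsto (fun N : ℕ => 2 * Real.pi / (N + 7 : ℝ)) Filter.atTop (𝓝 0) := by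
        apply Filter.Tendsto.const_div_atTop
        exact Filter.tendsto_atTop_add_const_right _ _ tendsto_natCast_atTop_atTop
      have h4 : Filter.Tendsto (fun N : ℕ => r * (1 - (2 * Real.pi / (N + 7 : ℝ)) ^ 2 / 16))
          Filter.atTop (𝓝 (r * (1 - 0 ^ 2 / 16))) :=
        ((h3.pow 2).div_const 16).const_sub 1 |>.const_mul r
      have h5 : r * (1 - 0 ^ 2 / 16) = r := by norm_num
      rw [h5] at h4
      exact Filter.Tendsto.div tendsto_const_nhds h4 hr.ne'
    · left
      rw [Ne, ENNReal.ofReal_eq_zero, not_le]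
      positivity
  have h6 : MeasureTheory.volume S ≤ ENNReal.ofReal (1 / r) * M := ge_of_tendsto' h2 h1
  calc ENNReal.ofReal r * MeasureTheory.volume S
      ≤ ENNReal.ofReal r * (ENNReal.ofReal (1 / r) * M) := by gcongr
    _ = M := by
      rw [← mul_assoc, ← ENNReal.ofReal_mul hr.le, mul_one_div_cancel hr.ne', ENNReal.ofReal_one,
        one_mul]

end AX
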