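import Pool.Agent.Helper48.AX.Defs

/-! PER: the boundary length of an intersection of congruent disks -/

set_option autoImplicit false

open scoped MeasureTheory ENNReal Topology
open Complex Set

noncomputable section

namespace AX

lemma per_closed {n : ℕ} (r : ℝ) (c : Fin n → ℂ) : IsClosed (K r c) :=
  isClosed_iInter fun _ => Metric.isClosed_closedBall

lemma per_mem {n : ℕ} {r : ℝ} {c : Fin n → ℂ} {x : ℂ} : x ∈ K r c ↔ ∀ i, dist x (c i) ≤ r := by
  unfold K
  simp [Metric.mem_closedBall]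

lemma per_frontier {n : ℕ} (r : ℝ) (c : Fin n → ℂ) (hr : 0 < r) :
    frontier (K r c) = ⋃ i, {x | x ∈ K r c ∧ dist x (c i) = r} := by
  rw [(per_closed r c).frontier_eq]
  ext x
  simp only [Set.mem_sdiff, Set.mem_iUnion, Set.mem_ofPred_eq]
  constructor
  · rintro ⟨hx, hnx⟩
    by_contra hcon
    push Not at hcon
    apply hnx
    rw [mem_interior]
    refine ⟨⋂ i, Metric.ball (c i) r, ?_, isOpen_iInter_of_finite fun _ => Metric.isOpen_ball, ?_⟩
    · exact Set.iInter_mono fun i => Metric.ball_subset_closedBall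
    · rw [Set.mem_iInter]
      intro i
      rw [Metric.mem_ball]
      exact lt_of_le_of_ne (per_mem.1 hx i) (hcon i hx)
  · rintro ⟨i, hx, hxi⟩
    refine ⟨hx, fun hin => ?_⟩
    have h1 : x ∈ interior (Metric.closedBall (c i) r) :=
      interior_mono (Set.iInter_subset _ i) hin
    rw [interior_closedBall _ hr.ne', Metric.mem_ball, hxi] at h1
    exact lt_irrefl _ h1

lemma per_image {n : ℕ} (r : ℝ) (c : Fin n → ℂ) (hr : 0 < r) (i : Fin n) (s : ℝ) :
    (fun θ : ℝ => c i + (r : ℂ) * e θ) '' (T r c i ∩ Set.Ico s (s + 2 * Real.pi)) =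
      {x | x ∈ K r c ∧ dist x (c i) = r} := by
  ext x
  simp only [Set.mem_image, Set.mem_inter_iff, Set.mem_ofPred_eq]
  constructor
  · rintro ⟨θ, ⟨hθ, -⟩, rfl⟩
    refine ⟨hθ, ?_⟩
    rw [dist_eq_norm, add_sub_cancel_left, norm_mul]
    unfold e
    rw [Complex.norm_exp_ofReal_mul_I, Complex.norm_real, Real.norm_eq_abs, abs_of_pos hr, mul_one]
  · rintro ⟨hx, hxi⟩
    have h1 : x - c i = (r : ℂ) * e (Complex.arg (x - c i)) := by
      have h2 := Complex.norm_mul_exp_arg_mul_I (x - c i)
      rw [← dist_eq_norm, hxi] at h2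
      exact h2.symm
    obtain ⟨θ, hθ, hθ2⟩ : ∃ θ ∈ Set.Ico s (s + 2 * Real.pi), e θ = e (Complex.arg (x - c i)) := by
      refine ⟨toIcoMod Real.two_pi_pos s (Complex.arg (x - c i)),
        toIcoMod_mem_Ico Real.two_pi_pos s _, ?_⟩
      unfold e
      rw [toIcoMod, Complex.exp_eq_exp_iff_exists_int]
      refine ⟨-toIcoDiv Real.two_pi_pos s (Complex.arg (x - c i)), ?_⟩
      push_cast
      simp only [zsmul_eq_mul]
      push_cast
      ring
    refine ⟨θ, ⟨?_, hθ⟩, ?_⟩
    · unfold T
      rw [Set.mem_ofPred_eq, hθ2, ← h1, add_sub_cancel]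
      exact hx
    · show c i + (r : ℂ) * e θ = x
      rw [hθ2, ← h1, add_sub_cancel]

lemma per_finite (a b : ℂ) (r : ℝ) (hab : a ≠ b) :
    {x : ℂ | dist x a = r ∧ dist x b = r}.Finite := by
  by_cases h : ∃ p q : ℂ, p ≠ q ∧ (dist p a = r ∧ dist p b = r) ∧ (dist q a = r ∧ dist q b = r)
  · obtain ⟨p, q, hpq, hp, hq⟩ := h
    apply Set.Finite.subset (Set.toFinite {p, q})
    rintro x ⟨hxa, hxb⟩
    exact EuclideanGeometry.eq_of_dist_eq_of_dist_eq_of_finrank_eq_two
      Complex.finrank_real_complex hab hpq hp.1 hq.1 hxa hp.2 hq.2 hxb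
  · push Not at h
    apply Set.Subsingleton.finite
    intro p hp q hq
    by_contra hpq
    exact h p q hpq hp hq.1 hq.2

theorem st_PER (hA : ST_ARC) : ST_PER := by
  intro n r c s hr hc
  rw [per_frontier r c hr]
  have hclosed : ∀ i, IsClosed {x | x ∈ K r c ∧ dist x (c i) = r} := fun i =>
    (per_closed r c).inter (isClosed_eq (by fun_prop) continuous_const)
  have hna := MeasureTheory.Measure.nullSingletonClass_hausdorff ℂ one_pos
  rw [MeasureTheory.measure_iUnion₀]
  · rw [tsum_fintype, Finset.mul_sum]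
    apply Finset.sum_congr rfl
    intro i _
    rw [← per_image r c hr i (s i)]
    apply hA (c i) r (s i) _ hr
    · apply MeasurableSet.inter _ measurableSet_Ico
      have : T r c i = (fun θ : ℝ => c i + (r : ℂ) * e θ) ⁻¹' (K r c) := rfl
      rw [this]
      apply IsClosed.measurableSet
      apply (per_closed r c).preimage
      unfold e
      fun_prop
    · exact Set.inter_subset_right
  · intro i j hij
    have h1 : ({x | x ∈ K r c ∧ dist x (c i) = r} ∩ {x | x ∈ K r c ∧ dist x (c j) = r}).Finite := by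
      apply (per_finite (c i) (c j) r (fun h => hij (hc h))).subset
      rintro x ⟨hx1, hx2⟩
      exact ⟨hx1.2, hx2.2⟩
    exact h1.measure_zero _
  · intro i
    exact (hclosed i).measurableSet.nullMeasurableSet

end AX
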